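import Pool.Agent.V1170.BifCusp

set_option autoImplicit false

open Metric

namespace Pool.Agent.Results.MP_77ccbb_an.NearCusp

open Pool.Agent.V1170.Bif

/-- There is a nonempty open set `U` of parameters outside `∂M ∪ [0, 1/4]` at each point of which
the bifurcation radius is at least the distance to the boundary of the Mandelbrot set. -/
theorem result : ∃ U : Set ℂ, IsOpen U ∧ U.Nonempty ∧ ∀ c ∈ U,
    c ∉ frontier mandelbrot ∪ {z : ℂ | ∃ t : ℝ, 0 ≤ t ∧ t ≤ 1 / 4 ∧ z = t} ∧
      infDist c (frontier mandelbrot) ≤ rbif c := by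
  refine ⟨region, isOpen_region, region_nonempty, fun c hc => ?_⟩
  obtain ⟨h1, h2, h3, -, -⟩ := region_spec hc
  refine ⟨?_, h3⟩
  rintro (h | h)
  · exact h1 h
  · exact h2 h

end Pool.Agent.Results.MP_77ccbb_an.NearCusp
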